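import Pool.Agent.Y766.R10.Stm

/-!
Project R10 (helper766), job OFL: all `h`.
-/

set_option autoImplicit false

namespace Pool.Agent.Y528.R10

open Finset
open Pool.Agent.Y766
open Pool.Agent.Y766.R3 (FF)
open Pool.Agent.Y766.R10

/-- splitting a sum over `l` according to the power of `p` dividing `l`
(after `Pool.Agent.Y766.R7.split_v`) -/
lemma split_nat {p : ℕ} (hp : p.Prime) {M m ν : ℕ} (hM : M < p ^ ν) (G : ℕ → ℕ → ℝ)
    (hG : ∀ i l, 0 ≤ G i l) (hG' : ∀ v l : ℕ, G m (p ^ v * l) = G (m + v) l) :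
    ∑ l ∈ Icc 1 (M / p ^ m), G m l ≤ ∑ v ∈ range (ν - m),
      ∑ l ∈ (Icc 1 (M / p ^ (m + v))).filter (fun l => ¬ p ∣ l), G (m + v) l := by
  classical
  haveI := Fact.mk hp
  have hval : ∀ l ∈ Icc 1 (M / p ^ m), p ^ padicValNat p l ∣ l ∧ p ^ (m + padicValNat p l) ≤ M := by
    intro l hl
    rw [mem_Icc] at hl
    have h1 : p ^ padicValNat p l ∣ l := pow_padicValNat_dvd
    refine ⟨h1, ?_⟩
    have h2 : p ^ padicValNat p l ≤ l := Nat.le_of_dvd (by omega) h1
    calc p ^ (m + padicValNat p l) = p ^ m * p ^ padicValNat p l := pow_add _ _ _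
      _ ≤ p ^ m * (M / p ^ m) := Nat.mul_le_mul_left _ (h2.trans hl.2)
      _ ≤ M := Nat.mul_div_le M (p ^ m)
  calc ∑ l ∈ Icc 1 (M / p ^ m), G m l ≤
        ∑ l ∈ Icc 1 (M / p ^ m), ∑ v ∈ range (ν - m),
          (if padicValNat p l = v then G m l else 0) := by
        refine sum_le_sum fun l hl => ?_
        have h2 : padicValNat p l ∈ range (ν - m) := by
          have h3 := (hval l hl).2
          have h4 : m + padicValNat p l < ν := (Nat.pow_lt_pow_iff_right hp.one_lt).1 (by omega)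
          rw [mem_range]; omega
        rw [sum_ite_eq, if_pos h2]
    _ = ∑ v ∈ range (ν - m), ∑ l ∈ (Icc 1 (M / p ^ m)).filter (fun l => padicValNat p l = v),
          G m l := by
        rw [sum_comm]
        refine sum_congr rfl fun v _ => ?_
        rw [sum_filter]
    _ ≤ _ := by
        refine sum_le_sum fun v _ => ?_
        have hle : ∀ l ∈ (Icc 1 (M / p ^ m)).filter (fun l => padicValNat p l = v),
            l = p ^ v * (l / p ^ v) := by
          intro l hl
          rw [mem_filter] at hl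
          have h1 := (hval l hl.1).1
          rw [hl.2] at h1
          exact (Nat.mul_div_cancel' h1).symm
        have hinj : Set.InjOn (fun l => l / p ^ v)
            ((Icc 1 (M / p ^ m)).filter (fun l => padicValNat p l = v)) := by
          intro l hl l' hl' h
          have h1 : l / p ^ v = l' / p ^ v := h
          rw [hle l hl, hle l' hl', h1]
        have e1 : ∑ l ∈ (Icc 1 (M / p ^ m)).filter (fun l => padicValNat p l = v), G m l =
            ∑ l ∈ ((Icc 1 (M / p ^ m)).filter (fun l => padicValNat p l = v)).image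
              (fun l => l / p ^ v), G (m + v) l := by
          rw [sum_image hinj]
          refine sum_congr rfl fun l hl => ?_
          rw [← hG', ← hle l hl]
        rw [e1]
        refine sum_le_sum_of_subset_of_nonneg ?_ fun _ _ _ => hG _ _
        intro x hx
        rw [mem_image] at hx
        obtain ⟨l, hl, rfl⟩ := hx
        have h0 := hle l hl
        rw [mem_filter, mem_Icc] at hl
        rw [mem_filter, mem_Icc]
        have hl1 : 1 ≤ l / p ^ v := by
          rcases Nat.eq_zero_or_pos (l / p ^ v) with h | h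
          · rw [h] at h0; omega
          · exact h
        have hl2 : l / p ^ v ≤ M / p ^ (m + v) := by
          rw [pow_add, ← Nat.div_div_eq_div_mul]
          exact Nat.div_le_div_right hl.1.2
        refine ⟨⟨hl1, hl2⟩, ?_⟩
        intro hd
        have h5 : p ^ (v + 1) ∣ l := by
          rw [h0, pow_succ]
          exact Nat.mul_dvd_mul_left _ hd
        have h6 := pow_succ_padicValNat_not_dvd (p := p) (by omega : l ≠ 0)
        rw [hl.2] at h6
        exact h6 h5

lemma nat_le_pow' {δ : ℝ} (hδ : 0 < δ) (n : ℕ) :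
    (n : ℝ) ≤ (1 / (δ * Real.log 2)) * ((2 : ℝ) ^ n) ^ δ := by
  have hl : 0 < Real.log 2 := Real.log_pos (by norm_num)
  have e : ((2 : ℝ) ^ n) ^ δ = Real.exp (n * (δ * Real.log 2)) := by
    rw [← Real.rpow_natCast, ← Real.rpow_mul (by norm_num), Real.rpow_def_of_pos (by norm_num)]
    congr 1
    ring
  have h := Real.add_one_le_exp ((n : ℝ) * (δ * Real.log 2))
  rw [e, one_div, inv_mul_eq_div, le_div_iff₀ (by positivity)]
  linarith

theorem ofl (h : S_OFM) : S_OFL := by
  intro δ hδ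
  obtain ⟨κ₁, η, hκ₁, hη, h10, h1⟩ := h δ hδ
  refine ⟨κ₁, η / 2, hκ₁, by positivity, by linarith, ?_⟩
  intro κ hκ hκ' t p hp hp7
  obtain ⟨C, ν₀, hC, h2⟩ := h1 κ hκ hκ' t p hp hp7
  have hη2 : 0 < η / 2 := by positivity
  have hlog : 0 < Real.log 2 := Real.log_pos (by norm_num)
  set c1 : ℝ := 1 / (η / 2 * Real.log 2) with hc1
  have hc10 : 0 < c1 := by positivity
  refine ⟨C * c1, ν₀, by positivity, ?_⟩
  intro ν m hν hm hmν hmδ χ hχ B G hG a ha hsupp l1 l2 hl1 hl2 hl1' hl2' hpl1 hpl2 M hM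
  have hp7' : (7 : ℝ) ≤ p := by exact_mod_cast hp7
  set q : ℝ := (p : ℝ) ^ ν with hq
  have hq1 : 1 ≤ q := one_le_pow₀ (by linarith)
  have hq0 : 0 < q := by linarith
  set T : ℕ → ℕ → ℝ := fun i h => ‖∑ n ∈ (Icc 1 M).filter (fun n => l2 ∣ n ∧ l1 ∣ n + p ^ i * h),
        FF χ ((p : ℤ) ^ i * (h : ℤ)) (n : ℤ) * (ww q t G l1 (n + p ^ i * h) *
          (starRingEnd ℂ) (ww q t G l2 n))‖ with hT
  have hT0 : ∀ i l, 0 ≤ T i l := fun i l => norm_nonneg _
  have hT1 : ∀ v l : ℕ, T m (p ^ v * l) = T (m + v) l := by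
    intro v l
    have e1 : p ^ m * (p ^ v * l) = p ^ (m + v) * l := by ring
    have e2 : (p : ℤ) ^ m * ((p ^ v * l : ℕ) : ℤ) = (p : ℤ) ^ (m + v) * (l : ℤ) := by
      push_cast; ring
    simp only [hT]
    rw [e1, e2]
  have h3 := split_nat hp hM T hT0 hT1
  refine h3.trans ?_
  have h4 : ∀ v ∈ range (ν - m),
      ∑ l ∈ (Icc 1 (M / p ^ (m + v))).filter (fun l => ¬ p ∣ l), T (m + v) l ≤
        C * B ^ 2 * q ^ (-η) := by
    intro v hv
    rw [mem_range] at hv
    refine h2 ν (m + v) hν (by omega) (by omega) ?_ χ hχ B G hG a ha hsupp l1 l2 hl1 hl2 hl1'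
      hl2' hpl1 hpl2 M hM
    push_cast
    have : (0 : ℝ) ≤ v := Nat.cast_nonneg v
    linarith
  refine (sum_le_sum h4).trans ?_
  rw [sum_const, card_range, nsmul_eq_mul]
  have h5 : ((ν - m : ℕ) : ℝ) ≤ c1 * q ^ (η / 2) := by
    have h6 : ((ν - m : ℕ) : ℝ) ≤ (ν : ℝ) := by exact_mod_cast Nat.sub_le ν m
    have h7 := nat_le_pow' hη2 ν
    have h8 : ((2 : ℝ) ^ ν) ^ (η / 2) ≤ q ^ (η / 2) := by
      rw [hq]
      have : (2 : ℝ) ≤ p := by linarith
      gcongr
    exact h6.trans (h7.trans (by gcongr))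
  have h9 : q ^ (η / 2) * q ^ (-η) = q ^ (-(η / 2)) := by
    rw [← Real.rpow_add hq0]
    congr 1
    ring
  have h10' : 0 ≤ C * B ^ 2 * q ^ (-η) := by positivity
  calc ((ν - m : ℕ) : ℝ) * (C * B ^ 2 * q ^ (-η)) ≤
        c1 * q ^ (η / 2) * (C * B ^ 2 * q ^ (-η)) := mul_le_mul_of_nonneg_right h5 h10'
    _ = C * c1 * B ^ 2 * (q ^ (η / 2) * q ^ (-η)) := by ring
    _ = C * c1 * B ^ 2 * q ^ (-(η / 2)) := by rw [h9]

end Pool.Agent.Y528.R10
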